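import Mathlib

set_option autoImplicit false

namespace Pool.Agent.Results.MP_689627_co.Join

open Finset SimpleGraph Classical

section
variable {V W : Type} (G : SimpleGraph V)

/-- What the cops at `C` see of a robber at `x`. -/
noncomputable def obs {k : ℕ} (C : Fin k → V) (x : V) : Option V :=
  if ∀ i, G.Adj (C i) x then none else some x

/-- All the cops have seen before choosing their positions of round `t`. -/
noncomputable def hist {k : ℕ} (σ : List (Option V × Option V) → Fin k → V) (r : ℕ → V) :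
    ℕ → List (Option V × Option V)
  | 0 => []
  | t + 1 => (obs G (σ (hist σ r t)) (r (t - 1)), obs G (σ (hist σ r t)) (r t)) :: hist σ r t

/-- `k` cops win the hyperopic game. -/
def Wins (k : ℕ) : Prop := ∃ σ : List (Option V × Option V) → Fin k → V,
  (∀ h o i, σ (o :: h) i = σ h i ∨ G.Adj (σ h i) (σ (o :: h) i)) ∧
  ∀ r : ℕ → V, (∀ t, r (t + 1) = r t ∨ G.Adj (r t) (r (t + 1))) →
    ∃ t i, σ (hist G σ r t) i = r t ∨ σ (hist G σ r (t + 1)) i = r t

noncomputable def cH : ℕ := sInf {k | Wins G k}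

noncomputable def ups [Fintype V] : ℕ := sInf {s | ∃ S : Finset V, S.Nonempty ∧ S.card = s ∧
  (univ.filter fun x => ∀ v ∈ S, G.Adj v x).card ≤ s}

def join (J : SimpleGraph W) : SimpleGraph (V ⊕ W) := (Gᶜ ⊕g Jᶜ)ᶜ
end

def H : SimpleGraph (Fin 9) := fromRel fun a b =>
  ¬ (a + 1 = b ∧ a ≠ 3 ∧ a ≠ 8 ∨ b + 1 = a ∧ b ≠ 3 ∧ b ≠ 8 ∨ a = 0 ∧ b = 3 ∨ a = 3 ∧ b = 0 ∨
    a = 4 ∧ b = 8 ∨ a = 8 ∧ b = 4)

instance : DecidableRel H.Adj := fun _ _ => inferInstanceAs (Decidable (_ ∧ _))

def σ₀ : List (Option (Fin 9) × Option (Fin 9)) → Fin 2 → Fin 9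
  | [] => ![0, 4]
  | (_, some x) :: h => fun i => if H.Adj (σ₀ h i) x then x else σ₀ h i
  | (_, none) :: h => fun i => if σ₀ h i = 0 then 2 else if σ₀ h i = 2 then 0
      else if σ₀ h i = 4 then 6 else if σ₀ h i = 6 then 4 else σ₀ h i

def ob (C : Fin 2 → Fin 9) (x : Fin 9) : Option (Fin 9) := if ∀ i, H.Adj (C i) x then none else some x

theorem ob_eq (C : Fin 2 → Fin 9) (x : Fin 9) : obs H C x = ob C x := by
  unfold obs ob; congr

theorem two : Wins H 2 := by
  refine ⟨σ₀, ?_, fun r hr => ?_⟩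
  · rintro h ⟨o, _ | x⟩ i <;> simp only [σ₀]
    · generalize σ₀ h i = a
      revert a
      decide +kernel
    · split_ifs with c
      exacts [.inr c, .inl rfl]
  · by_contra! c
    have a := c 0
    have b := c 1
    have d := hr 0
    simp only [hist, ob_eq, zero_add, tsub_self, zero_tsub] at a b d
    generalize r 0 = x at *
    generalize r 1 = y at *
    revert x y
    decide +kernel

theorem key : ∀ S : Finset (Fin 9), #S ≤ 4 →
    9 - 3 * #S + #S / 3 - #S / 4 ≤ #(univ.filter fun y => ∀ v ∈ S, H.Adj v y) ∧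
    ∀ x ∉ S, 5 - #S - #S / 2 - #S / 3 ≤ #(univ.filter fun y => (y = x ∨ H.Adj x y) ∧ ∀ v ∈ S, H.Adj v y) := by
  decide +kernel

theorem five (S : Finset (Fin 9 ⊕ Fin 9)) (h : #S ≤ 4) (x : Fin 9 ⊕ Fin 9) (hx : x ∉ S) :
    5 ≤ #(univ.filter fun y => (y = x ∨ (join H H).Adj x y) ∧ ∀ v ∈ S, (join H H).Adj v y) := by
  have j : ∀ a b, ((join H H).Adj (.inl a) (.inl b) ↔ H.Adj a b) ∧ (join H H).Adj (.inl a) (.inr b) ∧
      ((join H H).Adj (.inr a) (.inr b) ↔ H.Adj a b) ∧ (join H H).Adj (.inr a) (.inl b) := fun a b => by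
    have := H.ne_of_adj (a := a) (b := b)
    simp only [join, compl_adj, sum_adj]
    grind
  have c := card_toLeft_add_card_toRight (u := S)
  have n : ∀ a ≤ 4, ∀ b ≤ 4, a + b ≤ 4 → 5 ≤ 5 - a - a / 2 - a / 3 + (9 - 3 * b + b / 3 - b / 4) := by decide
  have l := key S.toLeft (by omega)
  have r := key S.toRight (by omega)
  rw [← card_toLeft_add_card_toRight]
  rcases x with x | x
  · have a := l.2 x (by simpa using hx)
    refine le_trans (n _ (by omega) _ (by omega) (by omega)) (add_le_add (a.trans (card_le_card fun y => ?_))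
      (r.1.trans (card_le_card fun y => ?_))) <;> simp +contextual [j]
  · have a := r.2 x (by simpa using hx)
    refine le_trans ((n _ (by omega) _ (by omega) (by omega)).trans_eq (add_comm _ _)) (add_le_add (l.1.trans (card_le_card fun y => ?_))
      (a.trans (card_le_card fun y => ?_))) <;> simp +contextual [j]

theorem result : ∃ (V W : Type) (_ : Fintype V) (_ : Fintype W) (G : SimpleGraph V) (J : SimpleGraph W),
    G.Connected ∧ J.Connected ∧ min (cH G) (ups G) + min (cH J) (ups J) < cH (join G J) := by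
  refine ⟨Fin 9, Fin 9, inferInstance, inferInstance, H, H, by decide +kernel, by decide +kernel, ?_⟩
  have a : min (cH H) (ups H) ≤ 2 := (min_le_left _ _).trans (Nat.sInf_le two)
  refine lt_of_lt_of_le (by omega : _ < 5) (le_csInf ⟨9 + 9, fun _ => finSumFinEquiv.symm,
    fun _ _ _ => .inl rfl, fun r _ => ⟨0, finSumFinEquiv (r 0), .inl (by simp)⟩⟩ ?_)
  rintro k ⟨σ, -, w⟩
  by_contra hk
  have ci : ∀ h, #(univ.image (σ h)) ≤ 4 := fun h => card_image_le.trans (by simp; omega)
  have step : ∀ h x, (∀ i, σ h i ≠ x) → ∀ o, ∃ y, (∀ i, σ ((o, none) :: h) i ≠ y) ∧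
      (y = x ∨ (join H H).Adj x y) ∧ ∀ i, (join H H).Adj (σ h i) y := fun h x hx o => by
    obtain ⟨y, h1, h2⟩ := exists_mem_notMem_of_card_lt_card ((ci ((o, none) :: h)).trans_lt
      (five _ (ci h) x (by simpa using hx)))
    exact ⟨y, by simpa using h2, by simpa using h1⟩
  choose f f1 f2 f3 using step
  obtain ⟨x₀, -, h₀⟩ := exists_mem_notMem_of_card_lt_card (s := univ.image (σ [])) (t := univ)
    ((ci _).trans_lt (by simp))
  let s : ℕ → {p : List _ × (Fin 9 ⊕ Fin 9) // ∀ i, σ p.1 i ≠ p.2} := fun n => Nat.rec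
    ⟨([], x₀), by simpa using h₀⟩
    (fun t p => ⟨(_, f _ _ p.2 (if t = 0 then none else obs (join H H) (σ p.1.1) p.1.2)), f1 _ _ _ _⟩) n
  have e : ∀ t, hist (join H H) σ (fun t => (s (t + 1)).1.2) t = (s t).1.1 := fun t => by
    induction t with
    | zero => rfl
    | succ t ih =>
      have o : obs (join H H) (σ (s t).1.1) (s (t + 1)).1.2 = none := if_pos (f3 _ _ (s t).2 _)
      rw [hist, ih, o]
      cases t with
      | zero => rw [o]; rfl
      | succ t => rfl
  obtain ⟨t, i, h | h⟩ := w (fun t => (s (t + 1)).1.2) fun t => f2 _ _ (s (t + 1)).2 _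
  · rw [e] at h
    exact (f3 _ _ (s t).2 _ i).ne h
  · rw [e] at h
    exact (s (t + 1)).2 i h

end Pool.Agent.Results.MP_689627_co.Join
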